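import Pool.Agent.Q269.GJ.StC
import Pool.Agent.Q210.GR.Nic

/-!
# Project GJ, job NIC: most elements of a cell have nice data

Adapted from `Pool/Agent/Q210/GR/Nic.lean` (helper210).
-/

set_option autoImplicit false
set_option linter.all false

open scoped Classical
open Finset Polynomial

namespace Pool.Agent.Q198.GJ

open Pool.Agent.Q269.GJ
open Pool.Agent.Q269.GR (F2 IsRt hv own Irn Dn pr Pfam dg Ce IsCe FxR owR S_INJ S_UNR S_SYP S_IRC S_PRD)
open Pool.Agent.Y164.PS (L sg)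
open Pool.Agent.Q210.GR (box_few bad_inj)

/-- the statement `S_NIC` with the hypothesis that `n` is positive -/
def S_NIC1 : Prop := ∀ (k : Type) [Field k] [Fintype k], ringChar k ≠ 2 → IsSquare (-1 : k) →
  5 ≤ Fintype.card k → ∀ (Δ : k[X]), Δ ≠ 0 → ∀ (n : ℕ), 0 < n → ∀ (a : Fin n → k[X]) (m : ℕ) (P0 : Fin m → k[X])
  (mv : Finset (Fin m)), IsCe Δ P0 mv → ∀ (r : ℕ) (F : Type) [Field F] [Fintype F]
  [Algebra F2 F] (ξ : F), IsRt r ξ → Hyn a P0 mv r →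
  ((((Fintype.piFinset (Ce P0 mv)).filter fun T =>
      ¬ Nice (dg P0) mv r (FxR r ξ T) (xR a T)).card : ℕ) : ℝ) ≤
    nn n P0 mv r * (Fintype.piFinset (Ce P0 mv)).card

theorem t_NIC1 (h1 : S_INJ) (h2 : S_UNR) (h3 : S_SYP) (h4 : S_IRC) (h5 : S_PRD) : S_NIC1 := by
  intro k _ _ hk hm hq Δ hΔ n hn a m P0 mv hce r F _ _ _ ξ hξ hyn
  obtain ⟨_, _, _, _, _, p6⟩ := h5 k _ hΔ
  obtain ⟨_, u2, u3, _⟩ := h2 r F ξ hξ
  have hr0 : 0 < r := by have := hξ.lt; omega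
  have hξr : ξ ^ r = 1 := by rw [← hξ.ord]; exact pow_orderOf_eq_one ξ
  obtain ⟨heqd, hbig, hcard⟩ := hyn
  unfold sfx smv at hcard
  set S := univ.filter fun i => i ∉ mv ∧ r ∣ dg P0 i with hS
  set Λ := mv.filter fun i => r ∣ dg P0 i with hΛ
  set M := CG n S.card with hM
  have hMle : 4 * S.card + 64 ≤ M := by
    rw [hM]
    unfold CG
    nlinarith [Nat.zero_le (16 * n ^ 2), Nat.mul_le_mul_right S.card (Nat.mul_le_mul_left 4 hn)]
  have hmemS : ∀ i, i ∈ S ↔ (i ∉ mv ∧ r ∣ dg P0 i) := fun i => by simp [hS]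
  set Pi := Fintype.piFinset (Ce P0 mv) with hPi
  set Np := (Pi.card : ℝ) with hNp
  set X := 2 ^ M * (5 / 6) ^ Λ.card * Np with hX
  have hX0 : 0 ≤ X := by positivity
  set A : F → Finset (Fin m → k[X]) := fun ζ => Pi.filter fun T => ∃ v : Fin m → F, v ≠ 0 ∧
      (∀ i, ¬ (i ∉ mv ∧ r ∣ dg P0 i) → v i = 0) ∧
      ∀ j ∈ Λ, ∑ i, v i * hv r ζ (P0 i) (T j) = 0 with hA
  have hup : (2 : ℝ) ^ (4 * S.card + 64) * (5 / 6) ^ Λ.card * Np ≤ X := by
    rw [hX]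
    refine mul_le_mul_of_nonneg_right (mul_le_mul_of_nonneg_right ?_ (by positivity)) (by positivity)
    exact pow_le_pow_right₀ (by norm_num) hMle
  have hA1 : ((A ξ).card : ℝ) ≤ X := (bad_inj h1 h4 hk hq hce hξ u3 hbig hcard).trans hup
  have hA2 : ((A ξ⁻¹).card : ℝ) ≤ X := (bad_inj h1 h4 hk hq hce u2 u3 hbig hcard).trans hup
  set G : (Fin n → Fin n → F2) → Finset (Fin m → k[X]) := fun φ => Pi.filter fun T =>
    (Λ.filter fun j => pai φ (xb a (T j)) ≠ 0).card < M with hG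
  set Φ := (univ : Finset (Fin n → Fin n → F2)).filter (fun φ => ∃ l l', l < l' ∧ φ l l' ≠ 0) with hΦ
  have hG1 : ∀ φ ∈ Φ, ((G φ).card : ℝ) ≤ X := by
    intro φ hφ
    have hφ' := (mem_filter.1 hφ).2
    have hb := box_few (Ce P0 mv) Λ (fun j P => pai φ (xb a P) ≠ 0) M (fun j hj => by
        have hj1 := (mem_filter.1 hj).1
        have hC : Ce P0 mv j = Irn k (dg P0 j) := by rw [Ce, if_pos hj1]
        rw [hC]
        convert heqd j hj1 φ hφ' using 6)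
    refine le_trans (le_of_eq ?_) hb
    congr 2
    ext T
    rw [hG, mem_filter, mem_filter]
    refine and_congr_right fun _ => ?_
    rw [iff_iff_eq]
    congr
  have hc3 : ((Φ.card : ℕ) : ℝ) ≤ 2 ^ (n ^ 2) := by
    have h1 : Φ.card ≤ 2 ^ (n ^ 2) := by
      refine (card_filter_le _ _).trans (le_of_eq ?_)
      rw [card_univ, Fintype.card_fun, Fintype.card_fun, Fintype.card_fin, ← pow_mul, sq]
      congr 1
    exact_mod_cast h1
  have hsub : (Pi.filter fun T => ¬ Nice (dg P0) mv r (FxR r ξ T) (xR a T)) ⊆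
      (A ξ ∪ A ξ⁻¹) ∪ Φ.biUnion G := by
    intro T hT
    obtain ⟨hT1, hT2⟩ := mem_filter.1 hT
    obtain ⟨hfam, hdeg, hfix⟩ := p6 m P0 mv hce T hT1
    have hinv : ∀ i j, i ≠ j → r ∣ dg P0 i → r ∣ dg P0 j → hv r ξ (T j) (T i) = hv r ξ⁻¹ (T i) (T j) := by
      intro i j hij hi hj
      exact (h3 k hk hm (T i) (T j) r (hfam.mon i) (hfam.irr i) (hfam.mon j) (hfam.irr j)
        hr0 (by rw [hdeg]; exact hi) (by rw [hdeg]; exact hj)).2.2.2.2.2
        (fun h => hij (hfam.inj h)) F ξ hξr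
    by_contra hcon
    rw [mem_union, mem_union, not_or, not_or] at hcon
    obtain ⟨⟨c1, c2⟩, c3⟩ := hcon
    apply hT2
    refine ⟨fun v hvs hvj => ?_, fun v hvs hvj => ?_, fun φ hφ => ?_⟩
    · by_contra hv0
      apply c2
      refine mem_filter.2 ⟨hT1, v, hv0, hvs, fun j hj => ?_⟩
      obtain ⟨hj1, hj2⟩ := mem_filter.1 hj
      rw [← hvj j hj1 hj2]
      refine sum_congr rfl fun i _ => ?_
      by_cases hi : i ∉ mv ∧ r ∣ dg P0 i
      · have hij : i ≠ j := fun h => hi.1 (h ▸ hj1)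
        rw [FxR, if_neg hij, hinv i j hij hi.2 hj2, hfix i hi.1]
      · rw [hvs i hi, zero_mul, zero_mul]
    · by_contra hv0
      apply c1
      refine mem_filter.2 ⟨hT1, v, hv0, hvs, fun j hj => ?_⟩
      obtain ⟨hj1, hj2⟩ := mem_filter.1 hj
      rw [← hvj j hj1 hj2]
      refine sum_congr rfl fun i _ => ?_
      by_cases hi : i ∉ mv ∧ r ∣ dg P0 i
      · have hij : j ≠ i := fun h => hi.1 (h ▸ hj1)
        rw [FxR, if_neg hij, hfix i hi.1]
      · rw [hvs i hi, zero_mul, zero_mul]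
    · by_contra hlt
      push Not at hlt
      apply c3
      rw [mem_biUnion]
      exact ⟨φ, mem_filter.2 ⟨mem_univ _, hφ⟩, mem_filter.2 ⟨hT1, hlt⟩⟩
  have hle := (card_le_card hsub).trans ((card_union_le _ _).trans (Nat.add_le_add (card_union_le _ _)
    card_biUnion_le))
  have hle2 : (((Pi.filter fun T => ¬ Nice (dg P0) mv r (FxR r ξ T) (xR a T)).card : ℕ) : ℝ) ≤
      ((A ξ).card + (A ξ⁻¹).card : ℝ) + ∑ φ ∈ Φ, ((G φ).card : ℝ) := by
    exact_mod_cast hle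
  have hsum := sum_le_sum hG1
  rw [sum_const, nsmul_eq_mul] at hsum
  have hsum2 := mul_le_mul_of_nonneg_right hc3 hX0
  have h1p : (1 : ℝ) ≤ 2 ^ (n ^ 2) := one_le_pow₀ (by norm_num)
  have hfin : (((Pi.filter fun T => ¬ Nice (dg P0) mv r (FxR r ξ T) (xR a T)).card : ℕ) : ℝ) ≤
      2 ^ (n ^ 2 + 2) * X := by
    have e1 : (2 : ℝ) ^ (n ^ 2 + 2) * X = 4 * (2 ^ (n ^ 2) * X) := by ring
    have e2 := mul_le_mul_of_nonneg_right h1p hX0
    rw [e1]
    linarith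
  refine hfin.trans (le_of_eq ?_)
  rw [hX]
  unfold nn sfx smv
  rw [pow_add 2 (n ^ 2 + 2)]
  ring

end Pool.Agent.Q198.GJ
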